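import Pool.Agent.Lib.MP_247ac7.Graph6

/-!
# Equality in Brakke's inequality: the failure set is empty or large

For a Brakke flow of hypersurfaces in `ℝ^(n+1)` let `F` be the failure set of Q1: the points of
space-time near which equality in Brakke's inequality does not hold at almost every time. It
consists of singular points. If `F`, up to a null set of times, has zero `n`-dimensional parabolic
Hausdorff measure, then `F` is empty and equality holds for almost every time and every test
function.
-/

set_option autoImplicit false

namespace Pool.Agent.Results.MP_247ac7_gt.FailureGap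

open MeasureTheory Set MP247

/-- **Gap theorem for Q1.** The flow has locally bounded area ratios, or `InitialData`: it starts in
a ball with bounded area ratios, and its mean curvature vectors are normal.
* If the singular set (the points without a neighbourhood in which the flow is a smooth graph moving
  by mean curvature, with a constant multiplicity) is null for the `n`-dimensional parabolic
  Hausdorff measure, up to a set of times of measure zero, then equality holds for almost every time.
* The failure set is contained in the singular set, and equality for almost every time holds if and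
  only if the failure set is null, up to a set of times of measure zero.
* The same locally: if the part of the failure set in an open set `W` is null, up to a set of times
  of measure zero, then the failure set does not meet `W`.
* If the part of the failure set in an arbitrary set `S` is null, then at almost every time `t`
  equality holds for the test functions supported in the interior of the slice of `S` at `t`. -/
theorem result (n : ℕ) (hn : 1 ≤ n) (μ : ℝ → Measure (EuclideanSpace ℝ (Fin (n + 1))))
    (ν : ℝ → EuclideanSpace ℝ (Fin (n + 1)) → EuclideanSpace ℝ (Fin (n + 1)))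
    (hF : IsBrakkeFlow μ ν) (hA : AreaData n μ ν) :
    ((∃ N : Set ℝ, volume N = 0 ∧
      ParabolicNull n {p | 0 < p.2 ∧ ¬ Regular n μ ν p ∧ p.2 ∉ N}) → EqualityAE μ ν) ∧
    failureSet μ ν ⊆ {p | 0 < p.2 ∧ ¬ Regular n μ ν p} ∧
    (EqualityAE μ ν ↔ ∃ N : Set ℝ, volume N = 0 ∧
      ParabolicNull n {p | p ∈ failureSet μ ν ∧ p.2 ∉ N}) ∧
    (∀ (W : Set (EuclideanSpace ℝ (Fin (n + 1)) × ℝ)) (N : Set ℝ), IsOpen W → volume N = 0 →
      ParabolicNull n {p | p ∈ failureSet μ ν ∩ W ∧ p.2 ∉ N} → failureSet μ ν ∩ W = ∅) ∧
    (∀ S : Set (EuclideanSpace ℝ (Fin (n + 1)) × ℝ), ParabolicNull n (failureSet μ ν ∩ S) →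
      ∀ᵐ t : ℝ, 0 < t → ∀ φ : EuclideanSpace ℝ (Fin (n + 1)) → ℝ, Test φ →
        tsupport φ ⊆ interior {x | (x, t) ∈ S} → EqAt μ ν t φ) := by
  have hB := hA.bounded hn (by simp) hF
  obtain ⟨-, h1, h2, h3⟩ := q1_final hn hF hB
  have hsub := failureSet_subset (n := n) (by simp) hF hB.locMass
  refine ⟨?_, hsub, h1, h2, h3⟩
  rintro ⟨N, hN, hnull⟩
  refine h1.2 ⟨N, hN, hnull.mono ?_⟩
  rintro p ⟨hp, hpN⟩
  exact ⟨(hsub hp).1, (hsub hp).2, hpN⟩

end Pool.Agent.Results.MP_247ac7_gt.FailureGap
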