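import Pool.Agent.Lib.MP_247ac7.Graph6

/-!
# The integrated Brakke identity: the failure set is empty or large

For a Brakke flow of hypersurfaces in `ℝ^(n+1)` let `G` be the set of the points of space-time near
which the integrated identity `μ_t(φ) - μ_s(φ) = ∫_s^t ∫ (-φ|H|² + ∇φ · H)` fails. It consists of
singular points. The identity holds if and only if the mass is continuous in time and `G`, up to
countably many times, has zero `n`-dimensional parabolic Hausdorff measure.
-/

set_option autoImplicit false

namespace Pool.Agent.Results.MP_247ac7_gt.IntegratedGap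

open MeasureTheory Set MP247

/-- **Gap theorem for the integrated identity.** The flow has locally bounded area ratios, or
`InitialData`: it starts in a ball with bounded area ratios, and its mean curvature vectors are
normal.
* If the singular set (the points without a neighbourhood in which the flow is a smooth graph moving
  by mean curvature, with a constant multiplicity) is null for the `n`-dimensional parabolic
  Hausdorff measure, up to countably many times at which the `t ↦ μ_t(φ)` are continuous, then the
  identity holds for all times and test functions.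
* The failure set is contained in the singular set. If, in an open set `W`, it is null up to
  countably many times at which the `t ↦ μ_t(φ)` are continuous, then it does not meet `W`.
* The identity holds for all times and test functions if and only if all `t ↦ μ_t(φ)` are
  continuous and the failure set is null up to countably many times.
* For a flow which stays in a ball or has `InitialData` the last statement holds with continuity of
  the total mass. -/
theorem result (n : ℕ) (hn : 1 ≤ n) (μ : ℝ → Measure (EuclideanSpace ℝ (Fin (n + 1))))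
    (ν : ℝ → EuclideanSpace ℝ (Fin (n + 1)) → EuclideanSpace ℝ (Fin (n + 1)))
    (hF : IsBrakkeFlow μ ν) (hA : AreaData n μ ν) :
    (∀ Z : Set ℝ, Z.Countable →
      (∀ φ : EuclideanSpace ℝ (Fin (n + 1)) → ℝ, Test φ → ∀ z ∈ Z, 0 ≤ z →
        ContinuousWithinAt (mass μ φ) (Ici 0) z) →
      ParabolicNull n {p | 0 ≤ p.2 ∧ ¬ Regular n μ ν p ∧ p.2 ∉ Z} →
      IntegratedOn μ ν univ univ) ∧
    intFailureSet μ ν ⊆ {p | 0 ≤ p.2 ∧ ¬ Regular n μ ν p} ∧
    (∀ (W : Set (EuclideanSpace ℝ (Fin (n + 1)) × ℝ)) (Z : Set ℝ), IsOpen W → Z.Countable →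
      (∀ φ : EuclideanSpace ℝ (Fin (n + 1)) → ℝ, Test φ → ∀ z ∈ Z, 0 ≤ z →
        ContinuousWithinAt (mass μ φ) (Ici 0) z) →
      ParabolicNull n {p | p ∈ intFailureSet μ ν ∩ W ∧ p.2 ∉ Z} →
      intFailureSet μ ν ∩ W = ∅) ∧
    (IntegratedOn μ ν univ univ ↔
      (∀ φ : EuclideanSpace ℝ (Fin (n + 1)) → ℝ, Test φ → ContinuousOn (mass μ φ) (Ici 0)) ∧
      ∃ Z : Set ℝ, Z.Countable ∧ ParabolicNull n {p | p ∈ intFailureSet μ ν ∧ p.2 ∉ Z}) ∧
    ((∃ R : ℝ, InBall R μ) ∨ InitialData n μ ν → (IntegratedOn μ ν univ univ ↔
      ContinuousOn (fun t => (μ t univ).toReal) (Ici 0) ∧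
      ∃ Z : Set ℝ, Z.Countable ∧ ParabolicNull n {p | p ∈ intFailureSet μ ν ∧ p.2 ∉ Z})) := by
  have hB := hA.bounded hn (by simp) hF
  obtain ⟨h0, h1, h2, h3⟩ := int_final hn hF hB
  have hsub := intFailureSet_subset (n := n) (μ := μ) (ν := ν) (by simp) hF
  refine ⟨?_, hsub, h1, h2, ?_⟩
  · intro Z hZ hc hnull
    rw [h0]
    have h4 := h1 univ Z isOpen_univ hZ hc (hnull.mono (by
      rintro p ⟨⟨hp, -⟩, hpN⟩
      exact ⟨(hsub hp).1, (hsub hp).2, hpN⟩))
    rwa [inter_univ] at h4
  · rintro (⟨R, hR⟩ | h)
    · exact h3 R hR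
    · obtain ⟨R, _, hR⟩ := h.inBall hn (by simp) hF
      exact h3 R hR

end Pool.Agent.Results.MP_247ac7_gt.IntegratedGap
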